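import Mathlib

/-! Definitions and task statements for MP_5837b4_co (helper441):
quasi-periodic multiple tilings by a bounded measurable set imply lattice multiple tilings. -/

set_option autoImplicit false
open MeasureTheory Filter Topology

namespace Pool.Agent.H441QP

/-- the point of the lattice with basis `b` with integer coordinates `n` -/
noncomputable def lat {d : ℕ} (b : Module.Basis (Fin d) ℝ (EuclideanSpace ℝ (Fin d)))
    (n : Fin d → ℤ) : EuclideanSpace ℝ (Fin d) :=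
  ∑ j, ((n j : ℤ) : ℝ) • b j

/-- covering multiplicity of `x` by the translates of `P` along `v + lattice(b)` -/
noncomputable def cnt {d : ℕ} (P : Set (EuclideanSpace ℝ (Fin d)))
    (b : Module.Basis (Fin d) ℝ (EuclideanSpace ℝ (Fin d)))
    (v x : EuclideanSpace ℝ (Fin d)) : ℕ :=
  Set.ncard {n : Fin d → ℤ | x - v - lat b n ∈ P}

/-- the character `exp(-2πi⟨ξ,x⟩)` -/
noncomputable def ch {d : ℕ} (ξ x : EuclideanSpace ℝ (Fin d)) : ℂ :=
  Complex.exp (((-(2 * Real.pi * inner ℝ ξ x) : ℝ) : ℂ) * Complex.I)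

/-- `ξ` is in the dual lattice of the lattice with basis `b` -/
def IsDual {d : ℕ} (b : Module.Basis (Fin d) ℝ (EuclideanSpace ℝ (Fin d)))
    (ξ : EuclideanSpace ℝ (Fin d)) : Prop :=
  ∀ j, ∃ m : ℤ, inner ℝ ξ (b j) = (m : ℝ)

/-- mean value over the ball of radius `R` about the origin -/
noncomputable def avg {d : ℕ} (h : EuclideanSpace ℝ (Fin d) → ℂ) (R : ℝ) : ℂ :=
  (∫ x in Metric.ball (0 : EuclideanSpace ℝ (Fin d)) R, h x) /
    ((volume.real (Metric.ball (0 : EuclideanSpace ℝ (Fin d)) R) : ℝ) : ℂ)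

/-- T1. Basic properties of the covering multiplicity of a bounded measurable set. -/
def T1 : Prop :=
  ∀ (d : ℕ) (P : Set (EuclideanSpace ℝ (Fin d)))
    (b : Module.Basis (Fin d) ℝ (EuclideanSpace ℝ (Fin d))) (v : EuclideanSpace ℝ (Fin d)),
    Bornology.IsBounded P →
    (∀ x, {n : Fin d → ℤ | x - v - lat b n ∈ P}.Finite) ∧
    (∃ C : ℕ, ∀ x, cnt P b v x ≤ C) ∧
    (MeasurableSet P → Measurable (cnt P b v)) ∧
    (∀ x n, cnt P b v (x + lat b n) = cnt P b v x)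

/-- T2. Unfolding. -/
def T2 : Prop :=
  ∀ (d : ℕ) (P : Set (EuclideanSpace ℝ (Fin d)))
    (b : Module.Basis (Fin d) ℝ (EuclideanSpace ℝ (Fin d))) (v ξ : EuclideanSpace ℝ (Fin d)),
    Bornology.IsBounded P → MeasurableSet P → IsDual b ξ →
    ∫ x in ZSpan.fundamentalDomain b, (cnt P b v x : ℂ) * ch ξ x = ch ξ v * ∫ x in P, ch ξ x

/-- T3. The averages over large balls are almost translation invariant. -/
def T3 : Prop :=
  ∀ (d : ℕ) (C T : ℝ), 0 ≤ T → ∃ ε : ℝ → ℝ, Tendsto ε atTop (𝓝 0) ∧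
    ∀ (h : EuclideanSpace ℝ (Fin d) → ℂ), Measurable h → (∀ x, ‖h x‖ ≤ C) →
      ∀ t : EuclideanSpace ℝ (Fin d), ‖t‖ ≤ T → ∀ R : ℝ,
        ‖avg (fun x => h (x + t)) R - avg h R‖ ≤ ε R

/-- T4. Mean value of a bounded measurable function periodic under the lattice. -/
def T4 : Prop :=
  ∀ (d : ℕ) (b : Module.Basis (Fin d) ℝ (EuclideanSpace ℝ (Fin d)))
    (h : EuclideanSpace ℝ (Fin d) → ℂ) (C : ℝ), Measurable h → (∀ x, ‖h x‖ ≤ C) →
    (∀ x n, h (x + lat b n) = h x) →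
    Tendsto (avg h) atTop (𝓝 ((∫ x in ZSpan.fundamentalDomain b, h x) /
      ((volume.real (ZSpan.fundamentalDomain b) : ℝ) : ℂ)))

/-- T5. Mean value of a bounded measurable function multiplied by `z ≠ 1` by a translation. -/
def T5 : Prop :=
  ∀ (d : ℕ) (h : EuclideanSpace ℝ (Fin d) → ℂ) (C : ℝ), Measurable h → (∀ x, ‖h x‖ ≤ C) →
    ∀ (t : EuclideanSpace ℝ (Fin d)) (z : ℂ), z ≠ 1 → (∀ x, h (x + t) = z * h x) →
    Tendsto (avg h) atTop (𝓝 0)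

/-- T6. Elementary properties of the characters. -/
def T6 : Prop :=
  ∀ (d : ℕ),
    (∀ ξ x y : EuclideanSpace ℝ (Fin d), ch ξ (x + y) = ch ξ x * ch ξ y) ∧
    (∀ ξ η x : EuclideanSpace ℝ (Fin d), ch (ξ + η) x = ch ξ x * ch η x) ∧
    (∀ ξ x : EuclideanSpace ℝ (Fin d), ‖ch ξ x‖ = 1) ∧
    (∀ ξ : EuclideanSpace ℝ (Fin d), Measurable (ch ξ)) ∧
    (∀ ξ : EuclideanSpace ℝ (Fin d), ξ ≠ 0 → ∃ t, ch ξ t ≠ 1) ∧
    (∀ (b : Module.Basis (Fin d) ℝ (EuclideanSpace ℝ (Fin d))) (ξ : EuclideanSpace ℝ (Fin d)),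
      IsDual b ξ → ∀ n, ch ξ (lat b n) = 1) ∧
    (∀ (b : Module.Basis (Fin d) ℝ (EuclideanSpace ℝ (Fin d))) (ξ : EuclideanSpace ℝ (Fin d)),
      ¬ IsDual b ξ → ∃ n, ch ξ (lat b n) ≠ 1) ∧
    (∀ (b : Module.Basis (Fin d) ℝ (EuclideanSpace ℝ (Fin d))),
      ∃ g : Fin d → EuclideanSpace ℝ (Fin d), (∀ j, IsDual b (g j)) ∧
        ∀ ξ : EuclideanSpace ℝ (Fin d), IsDual b ξ →
          ∃ n : Fin d → ℤ, ξ = ∑ j, ((n j : ℤ) : ℝ) • g j)

/-- T7. Algebra: a power that makes all weighted sums of characters nonzero. -/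
def T7 : Prop :=
  ∀ (d m : ℕ) (c : Fin m → ℝ) (u : Fin m → Fin d → ℂ), (∀ i, 0 < c i) → (∀ i j, u i j ≠ 0) →
    ∃ N : ℕ, 0 < N ∧ ∀ (n : Fin d → ℤ) (I : Finset (Fin m)), I.Nonempty →
      ∑ i ∈ I, (c i : ℂ) * (∏ j, u i j ^ (n j)) ^ N ≠ 0

/-- T7a. A finitely generated commutative ring which is a field is finite. -/
def T7a : Prop :=
  ∀ (K : Type) [Field K], Algebra.FiniteType ℤ K → Finite K

/-- T7b. Specialisation: for finitely many nonzero complex numbers there are a subring of `ℂ`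
containing them and their inverses, and a homomorphism of it to a finite field. -/
def T7b : Prop :=
  ∀ (s : Finset ℂ), (∀ z ∈ s, z ≠ 0) →
    ∃ (A : Subring ℂ) (K : Type) (_ : Field K), Finite K ∧ Nonempty (A →+* K) ∧
      ∀ z ∈ s, z ∈ A ∧ z⁻¹ ∈ A

/-- T8a. Completeness of the characters on the unit cube. -/
def T8a : Prop :=
  ∀ (d : ℕ) (g : (Fin d → ℝ) → ℂ) (C : ℝ), Measurable g → (∀ y, ‖g y‖ ≤ C) →
    (∀ n : Fin d → ℤ, n ≠ 0 →
      ∫ y in Set.pi Set.univ (fun _ : Fin d => Set.Ioc (0 : ℝ) 1),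
        g y * Complex.exp (((-(2 * Real.pi * ∑ j, (n j : ℝ) * y j) : ℝ) : ℂ) * Complex.I) = 0) →
    ∃ z : ℂ, ∀ᵐ y ∂(volume.restrict (Set.pi Set.univ (fun _ : Fin d => Set.Ioc (0 : ℝ) 1))),
      g y = z

/-- T8. Completeness of the characters of the dual lattice. -/
def T8 : Prop :=
  ∀ (d : ℕ) (b : Module.Basis (Fin d) ℝ (EuclideanSpace ℝ (Fin d)))
    (h : EuclideanSpace ℝ (Fin d) → ℂ) (C : ℝ), Measurable h → (∀ x, ‖h x‖ ≤ C) →
    (∀ x n, h (x + lat b n) = h x) →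
    (∀ ξ, ξ ≠ 0 → IsDual b ξ → ∫ x in ZSpan.fundamentalDomain b, h x * ch ξ x = 0) →
    ∃ z : ℂ, ∀ᵐ x ∂(volume : Measure (EuclideanSpace ℝ (Fin d))), h x = z

/-- T9. The key identity: for nonzero `ξ` the Fourier transform of `P` times the sum of the
phases vanishes. -/
def T9 : Prop :=
  ∀ (d m : ℕ) (P : Set (EuclideanSpace ℝ (Fin d))) (w : Fin m → ℝ) (k : ℝ)
    (b : Fin m → Module.Basis (Fin d) ℝ (EuclideanSpace ℝ (Fin d)))
    (v : Fin m → EuclideanSpace ℝ (Fin d)),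
    Bornology.IsBounded P → MeasurableSet P →
    (∀ᵐ x ∂(volume : Measure (EuclideanSpace ℝ (Fin d))),
      ∑ i, w i * (cnt P (b i) (v i) x : ℝ) = k) →
    ∀ ξ : EuclideanSpace ℝ (Fin d), ξ ≠ 0 → ∀ I : Finset (Fin m),
      (∀ i, i ∈ I ↔ IsDual (b i) ξ) →
      (∑ i ∈ I, ((w i / volume.real (ZSpan.fundamentalDomain (b i)) : ℝ) : ℂ) * ch ξ (v i)) *
        (∫ x in P, ch ξ x) = 0

/-- MAIN. Quasi-periodic multiple tilings imply lattice multiple tilings. -/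
def MAIN : Prop :=
  ∀ (d m : ℕ) (P : Set (EuclideanSpace ℝ (Fin d))) (w : Fin m → ℝ) (k : ℝ)
    (b : Fin m → Module.Basis (Fin d) ℝ (EuclideanSpace ℝ (Fin d)))
    (v : Fin m → EuclideanSpace ℝ (Fin d)),
    Bornology.IsBounded P → MeasurableSet P → 0 < volume P → (∀ i, 0 < w i) →
    (∀ᵐ x ∂(volume : Measure (EuclideanSpace ℝ (Fin d))),
      ∑ i, w i * (cnt P (b i) (v i) x : ℝ) = k) →
    ∀ i₀ : Fin m, ∃ N : ℕ, 0 < N ∧ ∃ k' : ℕ, 0 < k' ∧
      ∀ᵐ x ∂(volume : Measure (EuclideanSpace ℝ (Fin d))),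
        Set.ncard {n : Fin d → ℤ | x - ∑ j, ((n j : ℤ) : ℝ) • ((N : ℝ)⁻¹ • b i₀ j) ∈ P} = k'

end Pool.Agent.H441QP
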