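import Pool.Agent.H441QP.Defs

set_option autoImplicit false
open MeasureTheory Filter Topology

namespace Pool.Agent.H441QP

theorem T1_lat_add {d : ℕ} (b : Module.Basis (Fin d) ℝ (EuclideanSpace ℝ (Fin d)))
    (n m : Fin d → ℤ) : lat b (n + m) = lat b n + lat b m := by
  unfold lat
  rw [← Finset.sum_add_distrib]
  refine Finset.sum_congr rfl fun j _ => ?_
  rw [← add_smul]
  congr 1
  simp

theorem T1_coord {d : ℕ} (b : Module.Basis (Fin d) ℝ (EuclideanSpace ℝ (Fin d)))
    (n : Fin d → ℤ) (j : Fin d) : b.equivFun (lat b n) j = (n j : ℝ) := by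
  unfold lat
  rw [← b.equivFun_symm_apply (fun j => ((n j : ℤ) : ℝ)), LinearEquiv.apply_symm_apply]

theorem T1_bound {d : ℕ} (P : Set (EuclideanSpace ℝ (Fin d)))
    (b : Module.Basis (Fin d) ℝ (EuclideanSpace ℝ (Fin d))) (v : EuclideanSpace ℝ (Fin d))
    (hP : Bornology.IsBounded P) :
    ∃ M R : ℝ, 0 ≤ M ∧ 0 ≤ R ∧ ∀ (x : EuclideanSpace ℝ (Fin d)) (n : Fin d → ℤ),
      x - v - lat b n ∈ P → ∀ j, |(n j : ℝ)| ≤ M * (‖x - v‖ + R) := by
  obtain ⟨R, hR0, hR⟩ := hP.exists_pos_norm_le
  set F := LinearMap.toContinuousLinearMap (b.equivFun : EuclideanSpace ℝ (Fin d) →ₗ[ℝ] (Fin d → ℝ))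
    with hF
  refine ⟨‖F‖, R, norm_nonneg _, hR0.le, ?_⟩
  intro x n hn j
  have h1 : ‖lat b n‖ ≤ ‖x - v‖ + R := by
    have h2 : lat b n = (x - v) - (x - v - lat b n) := by abel
    rw [h2]
    exact (norm_sub_le _ _).trans (by have := hR _ hn; linarith)
  have h3 : ‖F (lat b n)‖ ≤ ‖F‖ * (‖x - v‖ + R) :=
    (F.le_opNorm _).trans (mul_le_mul_of_nonneg_left h1 (norm_nonneg _))
  have h4 : F (lat b n) j = (n j : ℝ) := T1_coord b n j
  rw [← h4, ← Real.norm_eq_abs]
  exact (norm_le_pi_norm _ j).trans h3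

theorem T1_box {d : ℕ} (P : Set (EuclideanSpace ℝ (Fin d)))
    (b : Module.Basis (Fin d) ℝ (EuclideanSpace ℝ (Fin d))) (v : EuclideanSpace ℝ (Fin d))
    (M R : ℝ) (h : ∀ (x : EuclideanSpace ℝ (Fin d)) (n : Fin d → ℤ),
      x - v - lat b n ∈ P → ∀ j, |(n j : ℝ)| ≤ M * (‖x - v‖ + R))
    (x : EuclideanSpace ℝ (Fin d)) (K : ℕ) (hK : M * (‖x - v‖ + R) ≤ K) :
    {n : Fin d → ℤ | x - v - lat b n ∈ P} ⊆
      Set.Icc (fun _ => -(K : ℤ)) (fun _ => (K : ℤ)) := by
  intro n hn
  have h1 := h x n hn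
  constructor
  · intro j
    have h2 := (abs_le.mp ((h1 j).trans hK)).1
    have h3 : ((-(K : ℤ) : ℤ) : ℝ) ≤ (n j : ℝ) := by push_cast; exact h2
    exact_mod_cast h3
  · intro j
    have h2 := (abs_le.mp ((h1 j).trans hK)).2
    exact_mod_cast h2

theorem t1 : T1 := by
  classical
  intro d P b v hP
  obtain ⟨M, R, hM, hR, hb⟩ := T1_bound P b v hP
  have hbox := T1_box P b v M R hb
  have hfin : ∀ x, {n : Fin d → ℤ | x - v - lat b n ∈ P}.Finite := fun x =>
    (Set.finite_Icc _ _).subset (hbox x _ (Nat.le_ceil _))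
  have hper : ∀ x n, cnt P b v (x + lat b n) = cnt P b v x := by
    intro x n
    unfold cnt
    have e : {n' : Fin d → ℤ | x + lat b n - v - lat b n' ∈ P}
        = (fun m => m + n) '' {n' : Fin d → ℤ | x - v - lat b n' ∈ P} := by
      ext n'
      constructor
      · intro h
        refine ⟨n' - n, ?_, by simp⟩
        show x - v - lat b (n' - n) ∈ P
        have h1 : lat b n' = lat b (n' - n) + lat b n := by
          rw [← T1_lat_add, sub_add_cancel]
        have h2 : x - v - lat b (n' - n) = x + lat b n - v - lat b n' := by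
          rw [h1]; abel
        rw [h2]; exact h
      · rintro ⟨m, hm, rfl⟩
        show x + lat b n - v - lat b (m + n) ∈ P
        have h2 : x + lat b n - v - lat b (m + n) = x - v - lat b m := by
          rw [T1_lat_add]; abel
        rw [h2]; exact hm
    rw [e, Set.ncard_image_of_injective _ (add_left_injective n)]
  refine ⟨hfin, ?_, ?_, hper⟩
  · set D : ℝ := ∑ j, ‖b j‖ + ‖v‖ with hD
    set K : ℕ := ⌈M * (D + R)⌉₊ with hK
    refine ⟨(Set.Icc (fun _ : Fin d => -(K : ℤ)) (fun _ => (K : ℤ))).ncard, ?_⟩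
    intro x
    set m : Fin d → ℤ := fun j => ⌊b.equivFun x j⌋ with hm
    have hx : x = (x - lat b m) + lat b m := by abel
    rw [hx, hper]
    refine Set.ncard_le_ncard (hbox _ K ?_) (Set.finite_Icc _ _)
    have h1 : ‖x - lat b m‖ ≤ ∑ j, ‖b j‖ := by
      have h2 : x - lat b m = ∑ j, (Int.fract (b.equivFun x j)) • b j := by
        have h3 : x = ∑ j, (b.equivFun x j) • b j := (b.sum_equivFun x).symm
        unfold lat
        nth_rw 1 [h3]
        rw [← Finset.sum_sub_distrib]
        refine Finset.sum_congr rfl fun j _ => ?_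
        rw [← sub_smul]
        rfl
      rw [h2]
      refine (norm_sum_le _ _).trans (Finset.sum_le_sum fun j _ => ?_)
      rw [norm_smul, Real.norm_eq_abs, abs_of_nonneg (Int.fract_nonneg _)]
      have := (Int.fract_lt_one (b.equivFun x j)).le
      calc Int.fract (b.equivFun x j) * ‖b j‖ ≤ 1 * ‖b j‖ :=
            mul_le_mul_of_nonneg_right this (norm_nonneg _)
        _ = ‖b j‖ := one_mul _
    have h2 : ‖x - lat b m - v‖ ≤ D := by
      rw [hD]
      exact (norm_sub_le _ _).trans (by linarith)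
    calc M * (‖x - lat b m - v‖ + R) ≤ M * (D + R) :=
          mul_le_mul_of_nonneg_left (by linarith) hM
      _ ≤ K := Nat.le_ceil _
  · intro hPm
    -- approximation by finite sums
    set S : ℕ → EuclideanSpace ℝ (Fin d) → ℕ := fun K x =>
      ∑ n ∈ Finset.Icc (fun _ : Fin d => -(K : ℤ)) (fun _ => (K : ℤ)),
        if x - v - lat b n ∈ P then 1 else 0 with hS
    have hSm : ∀ K, Measurable (S K) := by
      intro K
      refine Finset.measurable_fun_sum _ fun n _ => ?_
      refine Measurable.ite ?_ measurable_const measurable_const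
      have h1 : Measurable (fun x : EuclideanSpace ℝ (Fin d) => x - v - lat b n) := by fun_prop
      exact h1 hPm
    refine measurable_of_tendsto_metrizable hSm ?_
    rw [tendsto_pi_nhds]
    intro x
    refine tendsto_const_nhds.congr' ?_
    filter_upwards [eventually_ge_atTop ⌈M * (‖x - v‖ + R)⌉₊] with K hK
    have hK' : M * (‖x - v‖ + R) ≤ K := (Nat.le_ceil _).trans (by exact_mod_cast hK)
    have h1 := hbox x K hK'
    have e : {n : Fin d → ℤ | x - v - lat b n ∈ P} =
        ↑((Finset.Icc (fun _ : Fin d => -(K : ℤ)) (fun _ => (K : ℤ))).filter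
          (fun n => x - v - lat b n ∈ P)) := by
      ext n
      rw [Finset.mem_coe, Finset.mem_filter, Finset.mem_Icc]
      constructor
      · intro hn
        exact ⟨h1 hn, hn⟩
      · intro hn
        exact hn.2
    show cnt P b v x = S K x
    unfold cnt
    rw [e, Set.ncard_coe_finset, Finset.card_filter]

end Pool.Agent.H441QP
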