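import Pool.Agent.H441QP.Defs

set_option autoImplicit false
open MeasureTheory Filter Topology
open scoped Pointwise

namespace Pool.Agent.H441QP

section T2aux

variable {d : ℕ} (b : Module.Basis (Fin d) ℝ (EuclideanSpace ℝ (Fin d)))

/-- the integer vectors and the lattice -/
noncomputable def t2_e : (Fin d → ℤ) ≃ Submodule.span ℤ (Set.range b) :=
  (b.restrictScalars ℤ).equivFun.symm.toEquiv

theorem t2_e_apply (n : Fin d → ℤ) :
    ((t2_e b n : Submodule.span ℤ (Set.range b)) : EuclideanSpace ℝ (Fin d)) = lat b n := by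
  have h : (t2_e b n : Submodule.span ℤ (Set.range b)) =
      ∑ j, n j • (b.restrictScalars ℤ j) := Module.Basis.equivFun_symm_apply _ n
  rw [h, Submodule.coe_sum]
  unfold lat
  refine Finset.sum_congr rfl fun j _ => ?_
  rw [Submodule.coe_smul_of_tower, Module.Basis.restrictScalars_apply, Int.cast_smul_eq_zsmul]

theorem t2_lat_neg (n : Fin d → ℤ) : lat b (-n) = -lat b n := by
  unfold lat
  rw [← Finset.sum_neg_distrib]
  refine Finset.sum_congr rfl fun j _ => ?_
  simp

theorem t2_inst : VAddInvariantMeasure (Submodule.span ℤ (Set.range b))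
    (EuclideanSpace ℝ (Fin d)) volume :=
  inferInstanceAs (VAddInvariantMeasure (Submodule.span ℤ (Set.range b)).toAddSubgroup
    (EuclideanSpace ℝ (Fin d)) volume)

theorem t2_ch_add (ξ x y : EuclideanSpace ℝ (Fin d)) : ch ξ (x + y) = ch ξ x * ch ξ y := by
  unfold ch
  rw [← Complex.exp_add, inner_add_right]
  congr 1
  push_cast
  ring

theorem t2_ch_norm (ξ x : EuclideanSpace ℝ (Fin d)) : ‖ch ξ x‖ = 1 := by
  unfold ch
  exact Complex.norm_exp_ofReal_mul_I _

theorem t2_ch_cont (ξ : EuclideanSpace ℝ (Fin d)) : Continuous (ch ξ) := by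
  unfold ch
  fun_prop

theorem t2_ch_lat (ξ : EuclideanSpace ℝ (Fin d)) (h : IsDual b ξ) (n : Fin d → ℤ) :
    ch ξ (lat b n) = 1 := by
  choose m hm using h
  have h1 : inner ℝ ξ (lat b n) = ((∑ j, n j * m j : ℤ) : ℝ) := by
    unfold lat
    rw [inner_sum]
    push_cast
    refine Finset.sum_congr rfl fun j _ => ?_
    rw [inner_smul_right, hm]
  unfold ch
  rw [h1, Complex.exp_eq_one_iff]
  refine ⟨-(∑ j, n j * m j), ?_⟩
  push_cast
  ring

/-- the function on the whole space -/
noncomputable def t2_g (P : Set (EuclideanSpace ℝ (Fin d))) (v ξ x : EuclideanSpace ℝ (Fin d)) :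
    ℂ := Set.indicator P (fun _ => ch ξ x) (x - v)

theorem t2_g_int {P : Set (EuclideanSpace ℝ (Fin d))} (v ξ : EuclideanSpace ℝ (Fin d))
    (hP : Bornology.IsBounded P) (hPm : MeasurableSet P) : Integrable (t2_g P v ξ) volume ∧
    ∫ x, t2_g P v ξ x = ch ξ v * ∫ x in P, ch ξ x := by
  have h1 : (fun x => t2_g P v ξ (x + v)) = Set.indicator P (fun x => ch ξ v * ch ξ x) := by
    funext x
    unfold t2_g
    rw [add_sub_cancel_right]
    by_cases hx : x ∈ P
    · rw [Set.indicator_of_mem hx, Set.indicator_of_mem hx, t2_ch_add, mul_comm]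
    · rw [Set.indicator_of_notMem hx, Set.indicator_of_notMem hx]
  have h2 : IntegrableOn (fun x => ch ξ v * ch ξ x) P volume := by
    have hPf : volume P < ⊤ := hP.measure_lt_top
    have : IsFiniteMeasure (volume.restrict P) := ⟨by rwa [Measure.restrict_apply_univ]⟩
    refine Integrable.of_bound (C := 1) ?_ (Filter.Eventually.of_forall fun x => ?_)
    · exact (continuous_const.mul (t2_ch_cont ξ)).aestronglyMeasurable
    · rw [norm_mul, t2_ch_norm, t2_ch_norm, mul_one]
  have h3 : Integrable (fun x => t2_g P v ξ (x + v)) volume := by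
    rw [h1]
    exact h2.integrable_indicator hPm
  refine ⟨?_, ?_⟩
  · have h4 := h3.comp_add_right (-v)
    refine h4.congr (Filter.Eventually.of_forall fun x => ?_)
    show t2_g P v ξ (x + -v + v) = t2_g P v ξ x
    rw [neg_add_cancel_right]
  · rw [← integral_add_right_eq_self (μ := volume) (t2_g P v ξ) v]
    rw [h1, integral_indicator hPm, integral_const_mul]

end T2aux

theorem t2 (h1 : T1) : T2 := by
  classical
  intro d P b v ξ hP hPm hξ
  obtain ⟨hfin, -, -, -⟩ := h1 d P b v hP
  set D := ZSpan.fundamentalDomain b with hD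
  obtain ⟨hgi, hgv⟩ := t2_g_int v ξ hP hPm
  have hFD := ZSpan.isAddFundamentalDomain b (volume : Measure (EuclideanSpace ℝ (Fin d)))
  have hinv := t2_inst b
  have hgm : AEStronglyMeasurable (t2_g P v ξ) volume := hgi.aestronglyMeasurable
  -- the terms
  set f : (Fin d → ℤ) → EuclideanSpace ℝ (Fin d) → ℂ := fun n x => t2_g P v ξ (lat b n + x) with hf
  have hfx : ∀ x, (cnt P b v x : ℂ) * ch ξ x = ∑' n, f n x := by
    intro x
    have e1 : ∀ n, f (-n) x = if x - v - lat b n ∈ P then ch ξ x else 0 := by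
      intro n
      simp only [hf, t2_g]
      have e2 : lat b (-n) + x - v = x - v - lat b n := by
        rw [t2_lat_neg]
        abel
      have e3 : ch ξ (lat b (-n) + x) = ch ξ x := by
        rw [t2_ch_add, t2_ch_lat b ξ hξ, one_mul]
      rw [e2, e3]
      by_cases hx : x - v - lat b n ∈ P
      · rw [Set.indicator_of_mem hx, if_pos hx]
      · rw [Set.indicator_of_notMem hx, if_neg hx]
    have e4 : ∑' n, f n x = ∑' n, f (-n) x := ((Equiv.neg (Fin d → ℤ)).tsum_eq (fun n => f n x)).symm
    rw [e4]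
    simp only [e1]
    rw [tsum_eq_sum (s := (hfin x).toFinset)]
    · unfold cnt
      rw [Set.ncard_eq_toFinset_card _ (hfin x), ← nsmul_eq_mul, ← Finset.sum_const]
      refine Finset.sum_congr rfl fun n hn => ?_
      rw [Set.Finite.mem_toFinset] at hn
      rw [if_pos (show x - v - lat b n ∈ P from hn)]
    · intro n hn
      rw [Set.Finite.mem_toFinset] at hn
      rw [if_neg (show ¬ x - v - lat b n ∈ P from hn)]
  simp only [hfx]
  rw [integral_tsum]
  · have e5 := hFD.integral_eq_tsum'' (t2_g P v ξ) hgi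
    rw [← hgv, e5, ← (t2_e b).tsum_eq]
    refine tsum_congr fun n => ?_
    refine setIntegral_congr_fun (ZSpan.fundamentalDomain_measurableSet b) fun x _ => ?_
    show t2_g P v ξ (lat b n + x) = t2_g P v ξ (((t2_e b n : Submodule.span ℤ (Set.range b)) :
      EuclideanSpace ℝ (Fin d)) + x)
    rw [t2_e_apply]
  · intro n
    have : AEStronglyMeasurable (f n) volume := by
      have := hgm.comp_measurePreserving (measurePreserving_add_left volume (lat b n))
      exact this
    exact this.restrict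
  · have e6 := hFD.lintegral_eq_tsum'' (fun x => ‖t2_g P v ξ x‖ₑ)
    have e7 : ∑' n, ∫⁻ x in D, ‖f n x‖ₑ = ∫⁻ x, ‖t2_g P v ξ x‖ₑ := by
      rw [e6, ← (t2_e b).tsum_eq]
      refine tsum_congr fun n => ?_
      refine lintegral_congr fun x => ?_
      show ‖t2_g P v ξ (lat b n + x)‖ₑ = ‖t2_g P v ξ (((t2_e b n :
        Submodule.span ℤ (Set.range b)) : EuclideanSpace ℝ (Fin d)) + x)‖ₑ
      rw [t2_e_apply]
    rw [e7]
    exact hgi.hasFiniteIntegral.ne

end Pool.Agent.H441QP
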