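import Pool.Agent.H441QP.Defs

set_option autoImplicit false
open MeasureTheory Filter Topology

namespace Pool.Agent.H441QP

theorem t3_vol (d : ℕ) (r : ℝ) (hr : 0 < r) :
    volume.real (Metric.ball (0 : EuclideanSpace ℝ (Fin d)) r) =
      r ^ d * volume.real (Metric.ball (0 : EuclideanSpace ℝ (Fin d)) 1) := by
  rw [measureReal_def, measureReal_def, Measure.addHaar_ball_of_pos volume _ hr,
    ENNReal.toReal_mul, ENNReal.toReal_ofReal (by positivity), finrank_euclideanSpace,
    Fintype.card_fin]

theorem t3_int (d : ℕ) (C : ℝ) (h : EuclideanSpace ℝ (Fin d) → ℂ) (hm : Measurable h)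
    (hb : ∀ x, ‖h x‖ ≤ C) (x : EuclideanSpace ℝ (Fin d)) (r : ℝ) :
    IntegrableOn h (Metric.ball x r) volume :=
  Measure.integrableOn_of_bounded (M := C) measure_ball_lt_top.ne hm.aestronglyMeasurable
    (Eventually.of_forall hb)

theorem t3_avg_le (d : ℕ) (C : ℝ) (h : EuclideanSpace ℝ (Fin d) → ℂ)
    (hb : ∀ x, ‖h x‖ ≤ C) (R : ℝ) : ‖avg h R‖ ≤ C := by
  have hC : 0 ≤ C := (norm_nonneg _).trans (hb 0)
  unfold avg
  have h1 : ‖∫ x in Metric.ball (0 : EuclideanSpace ℝ (Fin d)) R, h x‖ ≤
      C * volume.real (Metric.ball (0 : EuclideanSpace ℝ (Fin d)) R) :=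
    norm_setIntegral_le_of_norm_le_const measure_ball_lt_top (fun x _ => hb x)
  rw [norm_div, Complex.norm_real, Real.norm_eq_abs, abs_of_nonneg measureReal_nonneg]
  rcases (measureReal_nonneg (μ := volume)
    (s := Metric.ball (0 : EuclideanSpace ℝ (Fin d)) R)).eq_or_lt with h0 | h0
  · rw [← h0, div_zero]
    exact hC
  · rw [div_le_iff₀ h0]
    exact h1

theorem t3 : T3 := by
  intro d C T hT
  refine ⟨fun R => if T < R then 2 * |C| * (1 - ((R - T) / R) ^ d) else 2 * |C|, ?_, ?_⟩
  · have h0 : Tendsto (fun R : ℝ => (R - T) / R) atTop (𝓝 1) := by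
      have h1 : Tendsto (fun R : ℝ => 1 - T / R) atTop (𝓝 (1 - 0)) :=
        tendsto_const_nhds.sub (tendsto_const_nhds.div_atTop tendsto_id)
      rw [sub_zero] at h1
      refine h1.congr' ?_
      filter_upwards [eventually_gt_atTop 0] with R hR
      field_simp
    have h1 : Tendsto (fun R : ℝ => 2 * |C| * (1 - ((R - T) / R) ^ d)) atTop (𝓝 0) := by
      have h2 := (tendsto_const_nhds (x := (1 : ℝ))).sub (h0.pow d)
      have h3 := h2.const_mul (2 * |C|)
      simpa using h3
    refine h1.congr' ?_
    filter_upwards [eventually_gt_atTop T] with R hR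
    rw [if_pos hR]
  · intro h hm hb t ht R
    have hC : 0 ≤ C := (norm_nonneg _).trans (hb 0)
    have hCa : |C| = C := abs_of_nonneg hC
    by_cases hR : T < R
    · simp only [if_pos hR, hCa]
      have hR0 : 0 < R := hT.trans_lt hR
      set A : Set (EuclideanSpace ℝ (Fin d)) := Metric.ball t R with hA
      set B : Set (EuclideanSpace ℝ (Fin d)) := Metric.ball 0 R with hB
      set D : Set (EuclideanSpace ℝ (Fin d)) := Metric.ball 0 (R - T) with hD
      have hDA : D ⊆ A := by
        intro x hx
        rw [hD, mem_ball_zero_iff] at hx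
        rw [hA, mem_ball_iff_norm]
        have := norm_sub_le x t
        linarith
      have hDB : D ⊆ B := Metric.ball_subset_ball (by linarith)
      have hiA : IntegrableOn h A volume := t3_int d C h hm hb t R
      have hiB : IntegrableOn h B volume := t3_int d C h hm hb 0 R
      have hmD : MeasurableSet D := Metric.isOpen_ball.measurableSet
      have e1 : ∫ x in B, h (x + t) = ∫ x in A, h x := by
        have hpre : B = (fun x => x + t) ⁻¹' A := by
          ext x
          simp [hA, hB]
        rw [hpre]
        exact (measurePreserving_add_right volume t).setIntegral_preimage_emb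
          (measurableEmbedding_addRight t) h A
      have e2 : ∫ x in A \ D, h x = (∫ x in A, h x) - ∫ x in D, h x :=
        setIntegral_sdiff hmD hiA hDA
      have e3 : ∫ x in B \ D, h x = (∫ x in B, h x) - ∫ x in D, h x :=
        setIntegral_sdiff hmD hiB hDB
      have vA : volume.real (A \ D) = volume.real B - volume.real D := by
        rw [measureReal_sdiff hDA hmD, hA, Measure.addHaar_real_ball_center]
      have vB : volume.real (B \ D) = volume.real B - volume.real D := by
        rw [measureReal_sdiff hDB hmD]
      have nA : ‖∫ x in A \ D, h x‖ ≤ C * volume.real (A \ D) :=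
        norm_setIntegral_le_of_norm_le_const
          ((measure_mono Set.sdiff_subset).trans_lt measure_ball_lt_top) (fun x _ => hb x)
      have nB : ‖∫ x in B \ D, h x‖ ≤ C * volume.real (B \ D) :=
        norm_setIntegral_le_of_norm_le_const
          ((measure_mono Set.sdiff_subset).trans_lt measure_ball_lt_top) (fun x _ => hb x)
      have hvB : 0 < volume.real B := by
        rw [measureReal_def]
        exact ENNReal.toReal_pos (Metric.measure_ball_pos volume _ hR0).ne'
          measure_ball_lt_top.ne
      have hV1 : 0 < volume.real (Metric.ball (0 : EuclideanSpace ℝ (Fin d)) 1) := by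
        rw [measureReal_def]
        exact ENNReal.toReal_pos (Metric.measure_ball_pos volume _ one_pos).ne'
          measure_ball_lt_top.ne
      have hratio : volume.real D / volume.real B = ((R - T) / R) ^ d := by
        rw [hD, hB, t3_vol d _ (by linarith), t3_vol d _ hR0, div_pow]
        field_simp
      have hmain : avg (fun x => h (x + t)) R - avg h R =
          ((∫ x in A \ D, h x) - ∫ x in B \ D, h x) / ((volume.real B : ℝ) : ℂ) := by
        unfold avg
        rw [← hB, e1, e2, e3, ← sub_div]
        congr 1
        ring
      rw [hmain, norm_div, Complex.norm_real, Real.norm_eq_abs, abs_of_pos hvB,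
        div_le_iff₀ hvB, ← hratio]
      refine (norm_sub_le _ _).trans ?_
      rw [vA] at nA
      rw [vB] at nB
      have : 2 * C * (1 - volume.real D / volume.real B) * volume.real B =
          2 * (C * (volume.real B - volume.real D)) := by
        field_simp
      rw [this]
      linarith
    · simp only [if_neg hR, hCa]
      refine (norm_sub_le _ _).trans ?_
      have h1 := t3_avg_le d C (fun x => h (x + t)) (fun x => hb _) R
      have h2 := t3_avg_le d C h hb R
      linarith

end Pool.Agent.H441QP
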