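import Pool.Agent.H441QP.Defs

set_option autoImplicit false
open MeasureTheory Filter Topology
open scoped Pointwise

namespace Pool.Agent.H441QP

section T4aux

variable {d : ℕ} (b : Module.Basis (Fin d) ℝ (EuclideanSpace ℝ (Fin d)))

/-- elements of the lattice -/
theorem t4_lat (g : Submodule.span ℤ (Set.range b)) : ∃ n : Fin d → ℤ,
    (g : EuclideanSpace ℝ (Fin d)) = lat b n := by
  refine ⟨(b.restrictScalars ℤ).equivFun g, ?_⟩
  have h := (b.restrictScalars ℤ).sum_equivFun g
  have h2 := congrArg (fun x : Submodule.span ℤ (Set.range b) => (x : EuclideanSpace ℝ (Fin d))) h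
  simp only at h2
  rw [← h2, Submodule.coe_sum]
  unfold lat
  refine Finset.sum_congr rfl fun j _ => ?_
  rw [Submodule.coe_smul_of_tower, Module.Basis.restrictScalars_apply, Int.cast_smul_eq_zsmul]

theorem t4_inst : VAddInvariantMeasure (Submodule.span ℤ (Set.range b))
    (EuclideanSpace ℝ (Fin d)) volume :=
  inferInstanceAs (VAddInvariantMeasure (Submodule.span ℤ (Set.range b)).toAddSubgroup
    (EuclideanSpace ℝ (Fin d)) volume)

theorem t4_shift (h : EuclideanSpace ℝ (Fin d) → ℂ) (hper : ∀ x n, h (x + lat b n) = h x)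
    (x : EuclideanSpace ℝ (Fin d)) :
    ∫ t in ZSpan.fundamentalDomain b, h (x + t) = ∫ t in ZSpan.fundamentalDomain b, h t := by
  have hD := ZSpan.isAddFundamentalDomain b (volume : Measure (EuclideanSpace ℝ (Fin d)))
  have hinv := t4_inst b
  have hD2 := hD.vadd_of_comm x
  have h1 := hD.setIntegral_eq hD2 (f := h) (by
    intro g y
    obtain ⟨n, hn⟩ := t4_lat b g
    show h ((g : EuclideanSpace ℝ (Fin d)) + y) = h y
    rw [hn, add_comm]
    exact hper y n)
  rw [h1]
  have h2 : (x +ᵥ ZSpan.fundamentalDomain b) = (fun t => x + t) '' ZSpan.fundamentalDomain b := rfl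
  rw [h2, (measurePreserving_add_left volume x).setIntegral_image_emb
    (measurableEmbedding_addLeft x)]

end T4aux

theorem t4 (h3 : T3) : T4 := by
  intro d b h C hm hC hper
  set D := ZSpan.fundamentalDomain b with hD
  have hDb : Bornology.IsBounded D := ZSpan.fundamentalDomain_isBounded b
  have hDm : MeasurableSet D := ZSpan.fundamentalDomain_measurableSet b
  have hDfin : volume D < ⊤ := hDb.measure_lt_top
  have hDpos : volume D ≠ 0 := ZSpan.measure_fundamentalDomain_ne_zero b
  have hDr : 0 < volume.real D := ENNReal.toReal_pos hDpos hDfin.ne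
  obtain ⟨T, hT⟩ := hDb.exists_norm_le
  have hT' : ∀ t ∈ D, ‖t‖ ≤ max T 0 := fun t ht => (hT t ht).trans (le_max_left _ _)
  obtain ⟨ε, hε, hε2⟩ := h3 d C (max T 0) (le_max_right _ _)
  set c : ℂ := (∫ x in D, h x) / ((volume.real D : ℝ) : ℂ) with hc
  have hDc : ((volume.real D : ℝ) : ℂ) ≠ 0 := by exact_mod_cast hDr.ne'
  have key : ∀ R, 0 < R → ‖avg h R - c‖ ≤ ε R := by
    intro R hR
    set B := Metric.ball (0 : EuclideanSpace ℝ (Fin d)) R with hB
    have hBfin : volume B < ⊤ := measure_ball_lt_top
    have hBpos : volume B ≠ 0 := (Metric.measure_ball_pos volume _ hR).ne'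
    have hBr : 0 < volume.real B := ENNReal.toReal_pos hBpos hBfin.ne
    have hBc : ((volume.real B : ℝ) : ℂ) ≠ 0 := by exact_mod_cast hBr.ne'
    have : IsFiniteMeasure (volume.restrict D) := ⟨by rwa [Measure.restrict_apply_univ]⟩
    have : IsFiniteMeasure (volume.restrict B) := ⟨by rwa [Measure.restrict_apply_univ]⟩
    have hint : Integrable (fun p : EuclideanSpace ℝ (Fin d) × EuclideanSpace ℝ (Fin d) =>
        h (p.2 + p.1)) ((volume.restrict D).prod (volume.restrict B)) := by
      refine Integrable.of_bound ?_ C (Filter.Eventually.of_forall fun p => hC _)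
      exact (hm.comp (measurable_snd.add measurable_fst)).aestronglyMeasurable
    have hswap : ∫ t in D, ∫ x in B, h (x + t) = ∫ x in B, ∫ t in D, h (x + t) :=
      integral_integral_swap (f := fun t x => h (x + t)) hint
    have hval : ∫ t in D, ∫ x in B, h (x + t) = ((volume.real B : ℝ) : ℂ) * ∫ t in D, h t := by
      rw [hswap]
      simp only [hD, t4_shift b h hper]
      rw [setIntegral_const, Complex.real_smul]
    have hint2 : Integrable (fun t => avg (fun x => h (x + t)) R) (volume.restrict D) := by
      unfold avg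
      exact (hint.integral_prod_left).div_const _
    have hval2 : ∫ t in D, avg (fun x => h (x + t)) R = ∫ t in D, h t := by
      unfold avg
      rw [integral_div, hval]
      exact mul_div_cancel_left₀ _ hBc
    have h5 : ∫ t in D, (avg (fun x => h (x + t)) R - avg h R) =
        (∫ t in D, h t) - ((volume.real D : ℝ) : ℂ) * avg h R := by
      rw [integral_sub hint2 (integrable_const _), hval2, setIntegral_const, Complex.real_smul]
    have h6 : ‖∫ t in D, (avg (fun x => h (x + t)) R - avg h R)‖ ≤ ε R * volume.real D :=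
      norm_setIntegral_le_of_norm_le_const hDfin (fun t ht => hε2 h hm hC t (hT' t ht) R)
    have h7 : avg h R - c = -(∫ t in D, (avg (fun x => h (x + t)) R - avg h R)) /
        ((volume.real D : ℝ) : ℂ) := by
      rw [h5, hc]
      field_simp
      ring
    rw [h7, norm_div, norm_neg, Complex.norm_real, Real.norm_eq_abs, abs_of_pos hDr,
      div_le_iff₀ hDr]
    exact h6
  rw [tendsto_iff_norm_sub_tendsto_zero]
  exact squeeze_zero' (Filter.Eventually.of_forall fun _ => norm_nonneg _)
    ((eventually_gt_atTop (0 : ℝ)).mono key) hε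

end Pool.Agent.H441QP
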