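import Pool.Agent.H441QP.Defs

set_option autoImplicit false
open MeasureTheory Filter Topology

namespace Pool.Agent.H441QP

theorem t5 (h3 : T3) : T5 := by
  intro d h C hm hC t z hz ht
  obtain ⟨ε, hε, hε2⟩ := h3 d C ‖t‖ (norm_nonneg _)
  have hz1 : 0 < ‖z - 1‖ := norm_pos_iff.mpr (sub_ne_zero.mpr hz)
  have hlim : Tendsto (fun R => ε R / ‖z - 1‖) atTop (𝓝 0) := by
    have := hε.div_const ‖z - 1‖
    rwa [zero_div] at this
  refine squeeze_zero_norm (fun R => ?_) hlim
  rw [le_div_iff₀ hz1]
  have h1 := hε2 h hm hC t le_rfl R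
  have e1 : avg (fun x => h (x + t)) R = z * avg h R := by
    unfold avg
    simp only [ht]
    rw [integral_const_mul, mul_div_assoc]
  rw [e1] at h1
  have e2 : z * avg h R - avg h R = avg h R * (z - 1) := by ring
  rw [e2, norm_mul] at h1
  exact h1

end Pool.Agent.H441QP
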