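import Pool.Agent.H441QP.Defs

set_option autoImplicit false
open MeasureTheory Filter Topology

namespace Pool.Agent.H441QP

namespace T6x

variable {d : ℕ}

theorem ch_add (ξ x y : EuclideanSpace ℝ (Fin d)) : ch ξ (x + y) = ch ξ x * ch ξ y := by
  unfold ch
  rw [← Complex.exp_add, inner_add_right]
  congr 1
  push_cast
  ring

theorem ch_add' (ξ η x : EuclideanSpace ℝ (Fin d)) : ch (ξ + η) x = ch ξ x * ch η x := by
  unfold ch
  rw [← Complex.exp_add, inner_add_left]
  congr 1
  push_cast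
  ring

theorem ch_norm (ξ x : EuclideanSpace ℝ (Fin d)) : ‖ch ξ x‖ = 1 := by
  unfold ch
  exact Complex.norm_exp_ofReal_mul_I _

theorem ch_cont (ξ : EuclideanSpace ℝ (Fin d)) : Continuous (ch ξ) := by
  unfold ch
  fun_prop

theorem ch_eq_one_iff (ξ x : EuclideanSpace ℝ (Fin d)) :
    ch ξ x = 1 ↔ ∃ m : ℤ, inner ℝ ξ x = (m : ℝ) := by
  unfold ch
  rw [Complex.exp_eq_one_iff]
  have hpi : (Real.pi : ℝ) ≠ 0 := Real.pi_ne_zero
  constructor
  · rintro ⟨m, hm⟩
    refine ⟨-m, ?_⟩
    have h1 : (((-(2 * Real.pi * inner ℝ ξ x) : ℝ) : ℂ)) = ((m * (2 * Real.pi) : ℝ) : ℂ) := by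
      apply mul_right_cancel₀ Complex.I_ne_zero
      rw [hm]
      push_cast
      ring
    have h2 : -(2 * Real.pi * inner ℝ ξ x) = m * (2 * Real.pi) := by exact_mod_cast h1
    push_cast
    have h3 : 2 * Real.pi * (inner ℝ ξ x + m) = 0 := by linarith
    have h4 : (2 * Real.pi) ≠ 0 := by positivity
    have h5 := (mul_eq_zero.1 h3).resolve_left h4
    linarith
  · rintro ⟨m, hm⟩
    refine ⟨-m, ?_⟩
    rw [hm]
    push_cast
    ring

theorem lat_single (b : Module.Basis (Fin d) ℝ (EuclideanSpace ℝ (Fin d))) (j : Fin d) :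
    lat b (Pi.single j 1) = b j := by
  unfold lat
  rw [Finset.sum_eq_single j]
  · simp
  · intro i _ hi
    simp [Pi.single_eq_of_ne hi]
  · simp

end T6x

theorem t6 : T6 := by
  intro d
  refine ⟨T6x.ch_add, T6x.ch_add', T6x.ch_norm, fun ξ => (T6x.ch_cont ξ).measurable, ?_, ?_, ?_, ?_⟩
  · intro ξ hξ
    refine ⟨(1 / (2 * ‖ξ‖ ^ 2)) • ξ, ?_⟩
    rw [Ne, T6x.ch_eq_one_iff]
    rintro ⟨m, hm⟩
    rw [inner_smul_right, real_inner_self_eq_norm_sq] at hm
    have h0 : ‖ξ‖ ≠ 0 := norm_ne_zero_iff.2 hξ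
    have h1 : 1 / (2 * ‖ξ‖ ^ 2) * ‖ξ‖ ^ 2 = 1 / 2 := by field_simp
    rw [h1] at hm
    have h2 : (1 : ℝ) = 2 * m := by linarith
    have h3 : (1 : ℤ) = 2 * m := by exact_mod_cast h2
    omega
  · intro b ξ hξ n
    rw [T6x.ch_eq_one_iff]
    choose m hm using hξ
    refine ⟨∑ j, n j * m j, ?_⟩
    unfold lat
    rw [inner_sum]
    push_cast
    refine Finset.sum_congr rfl fun j _ => ?_
    rw [inner_smul_right, hm]
  · intro b ξ hξ
    by_contra hcon
    push Not at hcon
    apply hξ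
    intro j
    have h1 := hcon (Pi.single j 1)
    rw [T6x.lat_single, T6x.ch_eq_one_iff] at h1
    exact h1
  · intro b
    let g : Fin d → EuclideanSpace ℝ (Fin d) := fun j =>
      (InnerProductSpace.toDual ℝ (EuclideanSpace ℝ (Fin d))).symm
        (LinearMap.toContinuousLinearMap (b.coord j))
    have hg : ∀ j x, inner ℝ (g j) x = b.coord j x := by
      intro j x
      simp only [g]
      rw [InnerProductSpace.toDual_symm_apply]
      rfl
    have hgb : ∀ j k, inner ℝ (g j) (b k) = if k = j then (1 : ℝ) else 0 := by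
      intro j k
      rw [hg, Module.Basis.coord_apply, Module.Basis.repr_self, Finsupp.single_apply]
    refine ⟨g, ?_, ?_⟩
    · intro j k
      rw [hgb]
      by_cases h : k = j
      · exact ⟨1, by simp [h]⟩
      · exact ⟨0, by simp [h]⟩
    · intro ξ hξ
      choose m hm using hξ
      refine ⟨m, ?_⟩
      refine InnerProductSpace.ext_inner_right_basis b fun k => ?_
      rw [hm, sum_inner]
      rw [Finset.sum_eq_single k]
      · rw [inner_smul_left, hgb]; simp
      · intro i _ hi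
        rw [inner_smul_left, hgb, if_neg (Ne.symm hi), mul_zero]
      · simp

end Pool.Agent.H441QP
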