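import Pool.Agent.H441QP.Defs

/-! MP_5837b4_co, task T7: the algebraic lemma. -/

set_option autoImplicit false
open MeasureTheory Filter Topology

namespace Pool.Agent.H441QP

theorem t7 (h7b : T7b) : T7 := by
  classical
  intro d m c u hc hu
  set s : Finset ℂ := (Finset.univ.image (fun i => (c i : ℂ))) ∪
    (Finset.univ.image (fun p : Fin m × Fin d => u p.1 p.2)) ∪
    ((Finset.univ.filter (fun I : Finset (Fin m) => I.Nonempty)).image
      (fun I => ∑ i ∈ I, (c i : ℂ))) with hs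
  have hsc : ∀ i, (c i : ℂ) ∈ s := by
    intro i
    rw [hs]
    simp
  have hsu : ∀ i j, u i j ∈ s := by
    intro i j
    rw [hs, Finset.mem_union, Finset.mem_union]
    exact Or.inl (Or.inr (Finset.mem_image.2 ⟨(i, j), Finset.mem_univ _, rfl⟩))
  have hsI : ∀ I : Finset (Fin m), I.Nonempty → ∑ i ∈ I, (c i : ℂ) ∈ s := by
    intro I hI
    rw [hs, Finset.mem_union]
    exact Or.inr (Finset.mem_image.2 ⟨I, by simpa using hI, rfl⟩)
  have hsumne : ∀ I : Finset (Fin m), I.Nonempty → ∑ i ∈ I, (c i : ℂ) ≠ 0 := by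
    intro I hI h
    have h1 : 0 < ∑ i ∈ I, c i := Finset.sum_pos (fun i _ => hc i) hI
    have h2 : ((∑ i ∈ I, c i : ℝ) : ℂ) = 0 := by
      rw [← h]
      push_cast
      rfl
    rw [Complex.ofReal_eq_zero] at h2
    linarith
  have hsne : ∀ z ∈ s, z ≠ 0 := by
    intro z hz
    rw [hs, Finset.mem_union, Finset.mem_union, Finset.mem_image, Finset.mem_image,
      Finset.mem_image] at hz
    rcases hz with (⟨i, -, rfl⟩ | ⟨p, -, rfl⟩) | ⟨I, hI, rfl⟩
    · exact Complex.ofReal_ne_zero.2 (hc i).ne'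
    · exact hu _ _
    · exact hsumne I (by simpa using hI)
  obtain ⟨A, K, _, hfin, ⟨φ⟩, hA⟩ := h7b s hsne
  haveI : Fintype K := Fintype.ofFinite K
  have hcard : 1 < Nat.card K := by
    rw [Nat.card_eq_fintype_card]
    exact Fintype.one_lt_card
  refine ⟨Nat.card K - 1, by omega, ?_⟩
  intro n I hI hzero
  -- units of `A`
  let U : Fin m → Fin d → Aˣ := fun i j =>
    ⟨⟨u i j, (hA _ (hsu i j)).1⟩, ⟨(u i j)⁻¹, (hA _ (hsu i j)).2⟩,
      Subtype.ext (mul_inv_cancel₀ (hu i j)), Subtype.ext (inv_mul_cancel₀ (hu i j))⟩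
  let a : Fin m → Aˣ := fun i => ∏ j, U i j ^ n j
  have ha : ∀ i, ((a i : A) : ℂ) = ∏ j, u i j ^ n j := by
    intro i
    have h1 : ((Units.map (A.subtype : A →* ℂ) (a i) : ℂˣ) : ℂ) = ∏ j, u i j ^ n j := by
      rw [show a i = ∏ j, U i j ^ n j from rfl, map_prod, Units.coe_prod]
      refine Finset.prod_congr rfl fun j _ => ?_
      rw [map_zpow, Units.val_zpow_eq_zpow_val]
      rfl
    exact h1
  have hpow : ∀ i, φ ((a i : A)) ^ (Nat.card K - 1) = 1 := by
    intro i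
    rw [Nat.card_eq_fintype_card]
    apply FiniteField.pow_card_sub_one_eq_one
    intro h0
    have h1 : φ ((a i : A)) * φ ((a i)⁻¹ : Aˣ) = 1 := by
      rw [← map_mul, Units.mul_inv, map_one]
    rw [h0, zero_mul] at h1
    exact zero_ne_one h1
  let cA : Fin m → A := fun i => ⟨(c i : ℂ), (hA _ (hsc i)).1⟩
  have hx : (∑ i ∈ I, cA i * ((a i : A)) ^ (Nat.card K - 1) : A) = 0 := by
    apply Subtype.ext
    have : ((∑ i ∈ I, cA i * ((a i : A)) ^ (Nat.card K - 1) : A) : ℂ) =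
        ∑ i ∈ I, (c i : ℂ) * (∏ j, u i j ^ (n j)) ^ (Nat.card K - 1) := by
      rw [AddSubmonoidClass.coe_finset_sum]
      refine Finset.sum_congr rfl fun i _ => ?_
      rw [← ha i]
      rfl
    rw [this, hzero]
    rfl
  have hS : φ (∑ i ∈ I, cA i) = 0 := by
    have h1 := congrArg φ hx
    rw [map_zero, map_sum] at h1
    rw [map_sum, ← h1]
    refine Finset.sum_congr rfl fun i _ => ?_
    rw [map_mul, map_pow, hpow, mul_one]
  have hmem := hA _ (hsI I hI)
  have h1 : (∑ i ∈ I, cA i) * (⟨(∑ i ∈ I, (c i : ℂ))⁻¹, hmem.2⟩ : A) = 1 := by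
    apply Subtype.ext
    have h2 : ((∑ i ∈ I, cA i : A) : ℂ) = ∑ i ∈ I, (c i : ℂ) := by
      rw [AddSubmonoidClass.coe_finset_sum]
    change ((∑ i ∈ I, cA i : A) : ℂ) * (∑ i ∈ I, (c i : ℂ))⁻¹ = 1
    rw [h2]
    exact mul_inv_cancel₀ (hsumne I hI)
  have h2 := congrArg φ h1
  rw [map_mul, hS, zero_mul, map_one] at h2
  exact zero_ne_one h2

end Pool.Agent.H441QP
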