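import Pool.Agent.H441QP.Defs

set_option autoImplicit false

namespace Pool.Agent.H441QP

theorem t7a_jac : IsJacobsonRing ℤ := by
  rw [isJacobsonRing_iff_prime_eq]
  intro P hP
  by_cases h0 : P = ⊥
  · subst h0
    refine le_antisymm ?_ bot_le
    intro x hx
    rw [Ideal.mem_jacobson_bot] at hx
    have h1 := hx x
    rw [Int.isUnit_iff] at h1
    rw [Ideal.mem_bot]
    rcases h1 with h1 | h1
    · have : x * x = 0 := by linarith
      exact mul_self_eq_zero.1 this
    · nlinarith [mul_self_nonneg x]
  · haveI := hP.isMaximal h0
    exact Ideal.jacobson_eq_self_of_isMaximal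

theorem t7a_core (K : Type*) [Field K] [Algebra.FiniteType ℤ K] : Finite K := by
  haveI := t7a_jac
  have hfin : Module.Finite ℤ K := finite_of_finite_type_of_isJacobsonRing ℤ K
  have hint : Algebra.IsIntegral ℤ K := inferInstance
  by_cases hinj : Function.Injective (algebraMap ℤ K)
  · exact absurd (isField_of_isIntegral_of_isField hinj (Field.toIsField K)) Int.not_isField
  · obtain ⟨p, hp⟩ := CharP.exists K
    have hp0 : p ≠ 0 := by
      rintro rfl
      haveI : CharZero K := CharP.charP_to_charZero K
      exact hinj (by simpa using (Int.cast_injective : Function.Injective (Int.cast : ℤ → K)))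
    haveI : NeZero p := ⟨hp0⟩
    letI : Algebra (ZMod p) K := ZMod.algebra K p
    haveI : Module.Finite (ZMod p) K := Module.Finite.of_restrictScalars_finite ℤ (ZMod p) K
    exact Module.finite_of_finite (ZMod p)

theorem t7a : T7a := by
  intro K _ h
  haveI := h
  exact t7a_core K

end Pool.Agent.H441QP
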