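import Mathlib
import Pool.Agent.H441QP.Defs

/-! Task T7b (helper804, for the project of helper441): specialisation to a finite field. -/

set_option autoImplicit false

namespace Pool.Agent.H441QP

theorem t7b (h7a : T7a) : T7b := by
  classical
  intro s _
  let T : Finset ℂ := s ∪ s.image fun z => z⁻¹
  let A := Algebra.adjoin ℤ (T : Set ℂ)
  have hft : Algebra.FiniteType ℤ A := (Subalgebra.fg_iff_finiteType A).1 ⟨T, rfl⟩
  obtain ⟨M, hM⟩ := Ideal.exists_maximal A
  have hfin : @Finite (A ⧸ M) := by
    let := Ideal.Quotient.field M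
    refine h7a (A ⧸ M) ?_
    exact Algebra.FiniteType.of_surjective (RingHom.toIntAlgHom (Ideal.Quotient.mk M))
      Ideal.Quotient.mk_surjective
  let e : A.toSubring →+* A :=
    { toFun := fun x => ⟨x.1, x.2⟩
      map_one' := rfl
      map_mul' := fun _ _ => rfl
      map_zero' := rfl
      map_add' := fun _ _ => rfl }
  refine ⟨A.toSubring, A ⧸ M, Ideal.Quotient.field M, hfin, ⟨(Ideal.Quotient.mk M).comp e⟩, ?_⟩
  intro z hz
  constructor
  · exact Algebra.subset_adjoin (Finset.mem_coe.2 (Finset.mem_union_left _ hz))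
  · exact Algebra.subset_adjoin (Finset.mem_coe.2
      (Finset.mem_union_right _ (Finset.mem_image_of_mem _ hz)))

end Pool.Agent.H441QP
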