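import Pool.Agent.H441QP.Defs

/-! Completeness of the characters of the dual lattice (helper205). -/

set_option autoImplicit false
open MeasureTheory Filter Topology

namespace Pool.Agent.H441QP

theorem repr_lat {d : ℕ} (b : Module.Basis (Fin d) ℝ (EuclideanSpace ℝ (Fin d)))
    (n : Fin d → ℤ) (i : Fin d) : b.repr (lat b n) i = (n i : ℝ) := by
  unfold lat
  have := b.repr_sum_self (fun j => ((n j : ℤ) : ℝ))
  rw [this]

theorem exists_lat {d : ℕ} (b : Module.Basis (Fin d) ℝ (EuclideanSpace ℝ (Fin d)))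
    (x : EuclideanSpace ℝ (Fin d)) : ∃ n : Fin d → ℤ, x - lat b n ∈ ZSpan.fundamentalDomain b := by
  refine ⟨fun j => ⌊b.repr x j⌋, ?_⟩
  rw [ZSpan.mem_fundamentalDomain]
  intro i
  rw [map_sub, Finsupp.sub_apply, repr_lat]
  exact ⟨Int.fract_nonneg _, Int.fract_lt_one _⟩

theorem t8 (h8a : T8a) : T8 := by
  intro d b h C hm hb hper hort
  let Λ : (Fin d → ℝ) ≃L[ℝ] EuclideanSpace ℝ (Fin d) := b.equivFun.symm.toContinuousLinearEquiv
  have hΛ : ∀ y, Λ y = ∑ j, y j • b j := fun y => b.equivFun_symm_apply y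
  have hrepr : ∀ y j, b.repr (Λ y) j = y j := by
    intro y j
    rw [hΛ, b.repr_sum_self]
  let me : (Fin d → ℝ) ≃ᵐ EuclideanSpace ℝ (Fin d) := Λ.toHomeomorph.toMeasurableEquiv
  have : (Measure.map Λ (volume : Measure (Fin d → ℝ))).IsAddHaarMeasure :=
    Λ.isAddHaarMeasure_map volume
  obtain ⟨c, hc0, hc⟩ : ∃ c : NNReal, c ≠ 0 ∧ (volume : Measure (EuclideanSpace ℝ (Fin d))) =
      c • (Measure.map Λ (volume : Measure (Fin d → ℝ))) :=
    ⟨_, (Measure.addHaarScalarFactor_pos_of_isAddHaarMeasure _ _).ne',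
      Measure.isAddLeftInvariant_eq_smul _ _⟩
  have hpre : Λ ⁻¹' (ZSpan.fundamentalDomain b) =
      Set.pi Set.univ (fun _ : Fin d => Set.Ico (0 : ℝ) 1) := by
    ext y
    rw [Set.mem_preimage, ZSpan.mem_fundamentalDomain]
    simp only [Set.mem_pi, Set.mem_univ, true_imp_iff]
    exact forall_congr' fun j => by rw [hrepr]
  have hae : (Set.pi Set.univ (fun _ : Fin d => Set.Ico (0 : ℝ) 1)) =ᵐ[volume]
      (Set.pi Set.univ (fun _ : Fin d => Set.Ioc (0 : ℝ) 1)) := by
    have h1 := Measure.univ_pi_Ico_ae_eq_Icc (μ := fun _ : Fin d => (volume : Measure ℝ))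
      (f := fun _ => 0) (g := fun _ => 1)
    have h2 := Measure.univ_pi_Ioc_ae_eq_Icc (μ := fun _ : Fin d => (volume : Measure ℝ))
      (f := fun _ => 0) (g := fun _ => 1)
    exact h1.trans h2.symm
  have hres : (Measure.map Λ (volume : Measure (Fin d → ℝ))).restrict
      (ZSpan.fundamentalDomain b) = Measure.map Λ (volume.restrict
        (Set.pi Set.univ (fun _ : Fin d => Set.Ioc (0 : ℝ) 1))) := by
    have h1 := me.restrict_map (volume : Measure (Fin d → ℝ)) (ZSpan.fundamentalDomain b)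
    have h2 : (me : (Fin d → ℝ) → EuclideanSpace ℝ (Fin d)) = Λ := rfl
    rw [h2, hpre, Measure.restrict_congr_set hae] at h1
    exact h1
  have hresv : volume.restrict (ZSpan.fundamentalDomain b) = c • Measure.map Λ (volume.restrict
        (Set.pi Set.univ (fun _ : Fin d => Set.Ioc (0 : ℝ) 1))) := by
    rw [← hres, ← Measure.restrict_smul, ← hc]
  obtain ⟨z, hz⟩ := h8a d (fun y => h (Λ y)) C (hm.comp Λ.continuous.measurable)
    (fun y => hb _) (by
    intro n hn
    let ℓ : EuclideanSpace ℝ (Fin d) →L[ℝ] ℝ :=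
      (∑ j, (n j : ℝ) • b.coord j).toContinuousLinearMap
    let ξ : EuclideanSpace ℝ (Fin d) := (InnerProductSpace.toDual ℝ _).symm ℓ
    have hξ : ∀ x, inner ℝ ξ x = ∑ j, (n j : ℝ) * b.repr x j := by
      intro x
      have h1 : inner ℝ ξ x = ℓ x := InnerProductSpace.toDual_symm_apply
      rw [h1]
      simp [ℓ]
    have hξb : ∀ j, inner ℝ ξ (b j) = (n j : ℝ) := by
      intro j
      rw [hξ]
      simp [Finsupp.single_apply]
    have hξ0 : ξ ≠ 0 := by
      intro h0
      apply hn
      funext j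
      have h1 := hξb j
      rw [h0, inner_zero_left] at h1
      exact_mod_cast h1.symm
    have h2 := hort ξ hξ0 (fun j => ⟨n j, hξb j⟩)
    rw [hresv, integral_smul_nnreal_measure, smul_eq_zero] at h2
    have h3 := h2.resolve_left hc0
    rw [show Measure.map Λ (volume.restrict (Set.pi Set.univ
      (fun _ : Fin d => Set.Ioc (0 : ℝ) 1))) = Measure.map me (volume.restrict (Set.pi Set.univ
      (fun _ : Fin d => Set.Ioc (0 : ℝ) 1))) from rfl, integral_map_equiv] at h3
    rw [← h3]
    refine integral_congr_ae (Filter.Eventually.of_forall fun y => ?_)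
    show h (Λ y) * _ = h (Λ y) * ch ξ (Λ y)
    congr 1
    unfold ch
    rw [hξ]
    simp only [hrepr])
  have h1 : ∀ᵐ x ∂(volume.restrict (ZSpan.fundamentalDomain b)), h x = z := by
    rw [hresv]
    refine Measure.ae_smul_measure ?_ c
    rw [show Measure.map Λ (volume.restrict (Set.pi Set.univ
      (fun _ : Fin d => Set.Ioc (0 : ℝ) 1))) = Measure.map me (volume.restrict (Set.pi Set.univ
      (fun _ : Fin d => Set.Ioc (0 : ℝ) 1))) from rfl]
    exact (ae_map_iff (p := fun x => h x = z) me.measurable.aemeasurable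
      (hm (measurableSet_singleton z))).mpr hz
  rw [ae_restrict_iff' (ZSpan.fundamentalDomain_measurableSet b)] at h1
  refine ⟨z, ?_⟩
  have h2 : ∀ n : Fin d → ℤ, ∀ᵐ x ∂(volume : Measure (EuclideanSpace ℝ (Fin d))),
      x - lat b n ∈ ZSpan.fundamentalDomain b → h (x - lat b n) = z := by
    intro n
    exact (measurePreserving_sub_right volume (lat b n)).quasiMeasurePreserving.ae h1
  rw [← ae_all_iff] at h2
  filter_upwards [h2] with x hx
  obtain ⟨n, hn⟩ := exists_lat b x
  rw [← hx n hn, ← hper (x - lat b n) n, sub_add_cancel]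

end Pool.Agent.H441QP
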