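import Pool.Agent.H441QP.Defs

/-! T8a: completeness of the characters on the unit cube. -/

set_option autoImplicit false
open MeasureTheory Filter Topology

namespace Pool.Agent.H441QP

namespace W8a

section

attribute [local instance] instMeasureSpaceUnitAddCircle

local instance inst8a : IsProbabilityMeasure (volume : Measure UnitAddCircle) :=
  inferInstanceAs (IsProbabilityMeasure AddCircle.haarAddCircle)

/-- section of the covering of the circle -/
noncomputable def psi1 (t : UnitAddCircle) : ℝ :=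
  ((AddCircle.equivIoc (1:ℝ) 0 t : Set.Ioc (0:ℝ) (0+1)) : ℝ)

theorem mp1 : MeasurePreserving psi1 (volume : Measure UnitAddCircle)
    (volume.restrict (Set.Ioc (0 : ℝ) 1)) := by
  have h0 : (volume : Measure UnitAddCircle) = (AddCircle.measureSpace (1:ℝ)).volume := by
    rw [AddCircle.volume_eq_smul_haarAddCircle, ENNReal.ofReal_one, one_smul]
    rfl
  have h1 : MeasurePreserving (AddCircle.equivIoc (1:ℝ) 0) (AddCircle.measureSpace (1:ℝ)).volume
      (Measure.comap Subtype.val (volume : Measure ℝ)) := AddCircle.measurePreserving_equivIoc (1:ℝ)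
  have h2 : MeasurePreserving (Subtype.val : Set.Ioc (0:ℝ) (0+1) → ℝ)
      (Measure.comap Subtype.val (volume : Measure ℝ))
      (volume.restrict (Set.Ioc (0:ℝ) (0+1))) := measurePreserving_subtype_coe measurableSet_Ioc
  have e : Set.Ioc (0 : ℝ) 1 = Set.Ioc 0 (0 + 1) := by rw [zero_add]
  rw [h0, e]
  exact h2.comp h1

/-- section of the covering of the torus -/
noncomputable def psi {d : ℕ} (t : UnitAddTorus (Fin d)) : Fin d → ℝ :=
  fun j => psi1 (t j)

theorem mp (d : ℕ) : MeasurePreserving (psi (d := d))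
    (volume : Measure (UnitAddTorus (Fin d)))
    (volume.restrict (Set.pi Set.univ (fun _ : Fin d => Set.Ioc (0 : ℝ) 1))) := by
  have h := measurePreserving_pi (fun _ : Fin d => (volume : Measure UnitAddCircle))
    (fun _ : Fin d => (volume : Measure ℝ).restrict (Set.Ioc (0 : ℝ) 1))
    (fun _ => mp1)
  rw [← Measure.restrict_pi_pi] at h
  exact h

theorem exp_eq {d : ℕ} (k : Fin d → ℤ) (t : UnitAddTorus (Fin d)) :
    UnitAddTorus.mFourier (-k) t =
      Complex.exp (((-(2 * Real.pi * ∑ j, (k j : ℝ) * psi t j) : ℝ) : ℂ) * Complex.I) := by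
  have h1 : ∀ j, (fourier ((-k) j) (t j) : ℂ) =
      Complex.exp (((-(2 * Real.pi * ((k j : ℝ) * psi t j)) : ℝ) : ℂ) * Complex.I) := by
    intro j
    have h2 : t j = (((AddCircle.equivIoc (1:ℝ) 0 (t j) : Set.Ioc (0:ℝ) (0+1)) : ℝ) :
        AddCircle (1:ℝ)) := (AddCircle.coe_equivIoc (p := (1:ℝ)) (a := 0)).symm
    conv_lhs => rw [h2]
    rw [fourier_coe_apply]
    congr 1
    unfold psi psi1
    simp only [Pi.neg_apply]
    push_cast
    ring
  change ∏ j, (fourier ((-k) j) (t j) : ℂ) = _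
  rw [Finset.prod_congr rfl (fun j _ => h1 j), ← Complex.exp_sum]
  congr 1
  push_cast
  rw [Finset.mul_sum, ← Finset.sum_neg_distrib, Finset.sum_mul]

theorem main (d : ℕ) (g : (Fin d → ℝ) → ℂ) (C : ℝ) (hg : Measurable g) (hC : ∀ y, ‖g y‖ ≤ C)
    (h : ∀ n : Fin d → ℤ, n ≠ 0 →
      ∫ y in Set.pi Set.univ (fun _ : Fin d => Set.Ioc (0 : ℝ) 1),
        g y * Complex.exp (((-(2 * Real.pi * ∑ j, (n j : ℝ) * y j) : ℝ) : ℂ) * Complex.I) = 0) :
    ∃ z : ℂ, ∀ᵐ y ∂(volume.restrict (Set.pi Set.univ (fun _ : Fin d => Set.Ioc (0 : ℝ) 1))),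
      g y = z := by
  have hψ := mp d
  have hm : Measurable (g ∘ psi (d := d)) := hg.comp hψ.measurable
  have hG : MemLp (g ∘ psi) 2 (volume : Measure (UnitAddTorus (Fin d))) :=
    MemLp.of_bound hm.aestronglyMeasurable C (Eventually.of_forall fun t => hC _)
  have hco : ∀ k : Fin d → ℤ, k ≠ 0 → UnitAddTorus.mFourierCoeff (hG.toLp _) k = 0 := by
    intro k hk
    have h1 : UnitAddTorus.mFourierCoeff (hG.toLp _) k =
        ∫ t, (fun y : Fin d → ℝ => g y * Complex.exp
          (((-(2 * Real.pi * ∑ j, (k j : ℝ) * y j) : ℝ) : ℂ) * Complex.I))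
          (psi t) ∂(volume : Measure (UnitAddTorus (Fin d))) := by
      unfold UnitAddTorus.mFourierCoeff
      apply integral_congr_ae
      filter_upwards [hG.coeFn_toLp] with t ht
      rw [ht, exp_eq, smul_eq_mul, mul_comm]
      rfl
    rw [h1, ← h k hk]
    conv_rhs => rw [← hψ.map_eq]
    rw [integral_map hψ.measurable.aemeasurable]
    refine Measurable.aestronglyMeasurable ?_
    fun_prop
  have h2 := UnitAddTorus.hasSum_mFourier_series_L2 (hG.toLp _)
  have h3 : hG.toLp _ = UnitAddTorus.mFourierCoeff (hG.toLp _) 0 • UnitAddTorus.mFourierLp 2 0 := by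
    refine h2.unique ?_
    refine hasSum_single 0 fun k hk => ?_
    rw [hco k hk, zero_smul]
  set z : ℂ := UnitAddTorus.mFourierCoeff (hG.toLp _) 0 with hz
  refine ⟨z, ?_⟩
  have h4 : ∀ᵐ t ∂(volume : Measure (UnitAddTorus (Fin d))), g (psi t) = z := by
    have h5 := hG.coeFn_toLp
    rw [h3] at h5
    filter_upwards [h5, Lp.coeFn_smul z (UnitAddTorus.mFourierLp (d := Fin d) 2 0),
      UnitAddTorus.coeFn_mFourierLp (d := Fin d) 2 0] with t h6 h7 h8
    have h9 : g (psi t) = (g ∘ psi) t := rfl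
    rw [h9, ← h6, h7, Pi.smul_apply, h8, UnitAddTorus.mFourier_zero]
    simp
  rw [← hψ.map_eq]
  rw [ae_map_iff hψ.measurable.aemeasurable (measurableSet_eq_fun hg measurable_const)]
  exact h4

end

end W8a

theorem t8a : T8a := fun d g C hg hC h => W8a.main d g C hg hC h

end Pool.Agent.H441QP
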