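import Pool.Agent.H441QP.Defs

set_option autoImplicit false
open MeasureTheory Filter Topology

namespace Pool.Agent.H441QP

theorem T9_int {d : ℕ} (h : EuclideanSpace ℝ (Fin d) → ℂ) (C : ℝ) (hm : Measurable h)
    (hC : ∀ x, ‖h x‖ ≤ C) (R : ℝ) :
    IntegrableOn h (Metric.ball (0 : EuclideanSpace ℝ (Fin d)) R) := by
  refine Measure.integrableOn_of_bounded (M := C) ?_ hm.aestronglyMeasurable ?_
  · exact measure_ball_lt_top.ne
  · exact Filter.Eventually.of_forall hC

theorem t9 (h1 : T1) (h2 : T2) (h4 : T4) (h5 : T5) (h6 : T6) : T9 := by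
  classical
  intro d m P w k b v hP hPm hae ξ hξ I hI
  obtain ⟨c1, -, c3, c4, c5, c6, c7, -⟩ := h6 d
  set Ph : ℂ := ∫ x in P, ch ξ x with hPh
  -- the functions
  set g : Fin m → EuclideanSpace ℝ (Fin d) → ℂ := fun i x => (cnt P (b i) (v i) x : ℂ) * ch ξ x
    with hg
  have hgm : ∀ i, Measurable (g i) := by
    intro i
    obtain ⟨-, -, hm, -⟩ := h1 d P (b i) (v i) hP
    have h7 : Measurable (fun x => (cnt P (b i) (v i) x : ℂ)) :=
      (measurable_from_top : Measurable (Nat.cast : ℕ → ℂ)).comp (hm hPm)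
    exact h7.mul (c4 ξ)
  have hgb : ∀ i, ∃ C : ℝ, ∀ x, ‖g i x‖ ≤ C := by
    intro i
    obtain ⟨-, ⟨C, hC⟩, -, -⟩ := h1 d P (b i) (v i) hP
    refine ⟨C, fun x => ?_⟩
    show ‖(cnt P (b i) (v i) x : ℂ) * ch ξ x‖ ≤ C
    rw [norm_mul, c3, mul_one, Complex.norm_natCast]
    exact_mod_cast hC x
  choose C hC using hgb
  -- limits of the averages
  set l : Fin m → ℂ := fun i => if i ∈ I then
    (ch ξ (v i) * Ph) / ((volume.real (ZSpan.fundamentalDomain (b i)) : ℝ) : ℂ) else 0 with hl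
  have hlim : ∀ i, Tendsto (avg (g i)) atTop (𝓝 (l i)) := by
    intro i
    obtain ⟨-, -, -, hper⟩ := h1 d P (b i) (v i) hP
    by_cases hi : i ∈ I
    · have hd : IsDual (b i) ξ := (hI i).mp hi
      have h7 := h4 d (b i) (g i) (C i) (hgm i) (hC i) (by
        intro x n
        show (cnt P (b i) (v i) (x + lat (b i) n) : ℂ) * ch ξ (x + lat (b i) n)
          = (cnt P (b i) (v i) x : ℂ) * ch ξ x
        rw [hper, c1, c6 (b i) ξ hd n, mul_one])
      have h8 := h2 d P (b i) (v i) ξ hP hPm hd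
      have e : l i = (∫ x in ZSpan.fundamentalDomain (b i), g i x) /
          ((volume.real (ZSpan.fundamentalDomain (b i)) : ℝ) : ℂ) := by
        simp only [hl, if_pos hi]
        rw [← h8]
      rw [e]
      exact h7
    · have hd : ¬ IsDual (b i) ξ := fun h => hi ((hI i).mpr h)
      obtain ⟨n, hn⟩ := c7 (b i) ξ hd
      have e : l i = 0 := by simp only [hl, if_neg hi]
      rw [e]
      refine h5 d (g i) (C i) (hgm i) (hC i) (lat (b i) n) (ch ξ (lat (b i) n)) hn ?_
      intro x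
      show (cnt P (b i) (v i) (x + lat (b i) n) : ℂ) * ch ξ (x + lat (b i) n)
        = ch ξ (lat (b i) n) * ((cnt P (b i) (v i) x : ℂ) * ch ξ x)
      rw [hper, c1]
      ring
  have hlimk : Tendsto (avg (ch ξ)) atTop (𝓝 0) := by
    obtain ⟨t, ht⟩ := c5 ξ hξ
    refine h5 d (ch ξ) 1 (c4 ξ) (fun x => (c3 ξ x).le) t (ch ξ t) ht ?_
    intro x
    rw [c1, mul_comm]
  -- the identity for the averages
  have hid : ∀ R, ∑ i, (w i : ℂ) * avg (g i) R = (k : ℂ) * avg (ch ξ) R := by
    intro R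
    have e1 : ∫ x in Metric.ball (0 : EuclideanSpace ℝ (Fin d)) R, ∑ i, (w i : ℂ) * g i x
        = ∫ x in Metric.ball (0 : EuclideanSpace ℝ (Fin d)) R, (k : ℂ) * ch ξ x := by
      refine integral_congr_ae ?_
      filter_upwards [ae_restrict_of_ae hae] with x hx
      have e2 : ∑ i, (w i : ℂ) * g i x = ((∑ i, w i * (cnt P (b i) (v i) x : ℝ) : ℝ) : ℂ) * ch ξ x := by
        push_cast
        rw [Finset.sum_mul]
        refine Finset.sum_congr rfl fun i _ => ?_
        simp only [hg]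
        ring
      rw [e2, hx]
    rw [integral_finsetSum _ (fun i _ => (T9_int (g i) (C i) (hgm i) (hC i) R).const_mul _),
      integral_const_mul] at e1
    simp only [integral_const_mul] at e1
    unfold avg
    rw [← mul_div_assoc, ← e1, Finset.sum_div]
    refine Finset.sum_congr rfl fun i _ => ?_
    rw [mul_div_assoc]
  have h9 : Tendsto (fun R => ∑ i, (w i : ℂ) * avg (g i) R) atTop (𝓝 (∑ i, (w i : ℂ) * l i)) :=
    tendsto_finsetSum _ fun i _ => (hlim i).const_mul _
  have h10 : Tendsto (fun R => ∑ i, (w i : ℂ) * avg (g i) R) atTop (𝓝 0) := by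
    simp only [hid]
    have := hlimk.const_mul (k : ℂ)
    rwa [mul_zero] at this
  have h11 := tendsto_nhds_unique h9 h10
  have h12 : ∑ i, (w i : ℂ) * l i
      = (∑ i ∈ I, ((w i / volume.real (ZSpan.fundamentalDomain (b i)) : ℝ) : ℂ) * ch ξ (v i)) * Ph := by
    simp only [hl, mul_ite, mul_zero]
    rw [Finset.sum_ite_mem, Finset.univ_inter, Finset.sum_mul]
    refine Finset.sum_congr rfl fun i _ => ?_
    push_cast
    ring
  rw [← h12]
  exact h11

end Pool.Agent.H441QP
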